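import Mathlib

/-!
# Every integer `n ≥ 2` is the covering number of a semigroup

Letters at level `k` are pairs (colour, index) with colour and index in `Fin n`.  Every letter of
level `k` is, as a relation on a space of states, equal to many words in letters of level `k + 1`:
one for every choice of a head letter and of two tail letters of one colour, different from the
colour of the head.
-/

set_option autoImplicit false

namespace Pool.Agent.Results.MP_2bfc8a_al.EveryCoveringNumber

/-- A semigroup is covered by `m` proper nonempty subsemigroups. -/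
def CoveredBy (S : Type) [Semigroup S] (m : ℕ) : Prop :=
  ∃ T : Fin m → Subsemigroup S,
    (∀ i, (T i : Set S).Nonempty ∧ T i ≠ ⊤) ∧ ∀ s : S, ∃ i, s ∈ T i

/-! ### Codes -/

/-- the data of a code word -/
structure Code (n : ℕ) where
  hd : Fin n × Fin n
  tc : Fin n
  b : Fin n
  b' : Fin n
  tg : Fin n × Fin n
  h1 : hd.1 ≠ tc
  h2 : b ≠ b'

variable {n : ℕ}

/-- number of a letter -/
def idx (l : Fin n × Fin n) : ℕ := (finProdFinEquiv l : Fin (n * n)).val

theorem idx_lt (l : Fin n × Fin n) : idx l < n * n := (finProdFinEquiv l : Fin (n * n)).isLt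

theorem idx_inj {l l' : Fin n × Fin n} (h : idx l = idx l') : l = l' :=
  finProdFinEquiv.injective (Fin.ext h)

/-- length of the code words -/
def L (n : ℕ) : ℕ := n * n + 2

/-- the letters of a code word -/
def Code.letter (g : Code n) : ℕ → Fin n × Fin n
  | 0 => g.hd
  | 1 => (g.tc, g.b)
  | (t + 2) => if t = idx g.tg then (g.tc, g.b') else (g.tc, g.b)

theorem letter_col (g : Code n) : ∀ t, 1 ≤ t → (g.letter t).1 = g.tc
  | 0, h => absurd h (by omega)
  | 1, _ => rfl
  | (t + 2), _ => by
    simp only [Code.letter]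
    split_ifs <;> rfl

theorem tg_eq (g g' : Code n) (h : ∀ s < L n, g.letter s = g'.letter s) : g.tg = g'.tg := by
  have h1 := h 1 (by unfold L; omega)
  have h2 := h (idx g.tg + 2) (by have := idx_lt g.tg; unfold L; omega)
  simp only [Code.letter, Prod.mk.injEq] at h1
  simp only [Code.letter, if_true] at h2
  by_cases hi : idx g.tg = idx g'.tg
  · exact idx_inj hi
  · rw [if_neg hi, Prod.mk.injEq] at h2
    exact absurd (h1.2.trans h2.2.symm) g.h2

/-! ### States and steps -/

/-- states: at every level, either between code words or inside one -/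
abbrev St (n : ℕ) := ℕ → Option (Code n × ℕ)

/-- the relation of a letter -/
def step : ℕ → Fin n × Fin n → St n → St n → Prop
  | 0, a, x, x' => (∀ j, x j = none) ∧
      ∃ g : Code n, g.letter 0 = a ∧ x' = Function.update x 0 (some (g, 1))
  | (k + 1), a, x, x' => (∀ j, k + 1 < j → x j = none) ∧
      ((x (k + 1) = none ∧
          ∃ g : Code n, g.letter 0 = a ∧ x' = Function.update x (k + 1) (some (g, 1))) ∨
        (∃ g t, x (k + 1) = some (g, t) ∧ 1 ≤ t ∧ t + 1 < L n ∧ g.letter t = a ∧
          x' = Function.update x (k + 1) (some (g, t + 1))) ∨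
        (∃ g t, x (k + 1) = some (g, t) ∧ 1 ≤ t ∧ t + 1 = L n ∧ g.letter t = a ∧
          step k g.tg (Function.update x (k + 1) none) x'))

theorem step_above : ∀ (k : ℕ) (a : Fin n × Fin n) (x x' : St n), step k a x x' →
    ∀ j, k < j → x j = none ∧ x' j = none
  | 0, a, x, x', h, j, hj => by
    obtain ⟨h1, g, -, rfl⟩ := h
    refine ⟨h1 j, ?_⟩
    rw [Function.update_of_ne (by omega)]
    exact h1 j
  | (k + 1), a, x, x', h, j, hj => by
    obtain ⟨h1, h2⟩ := h
    refine ⟨h1 j hj, ?_⟩
    rcases h2 with ⟨-, g, -, rfl⟩ | ⟨g, t, -, -, -, -, rfl⟩ | ⟨g, t, -, -, -, -, h3⟩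
    · rw [Function.update_of_ne (by omega)]
      exact h1 j hj
    · rw [Function.update_of_ne (by omega)]
      exact h1 j hj
    · exact (step_above k _ _ _ h3 j (by omega)).2

/-- the relation of a word -/
def run : List (ℕ × (Fin n × Fin n)) → St n → St n → Prop
  | [], x, x' => x = x'
  | (y :: W), x, x' => ∃ u, step y.1 y.2 x u ∧ run W u x'

theorem run_append (W V : List (ℕ × (Fin n × Fin n))) (x x' : St n) :
    run (W ++ V) x x' ↔ ∃ u, run W x u ∧ run V u x' := by
  induction W generalizing x with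
  | nil => simp [run]
  | cons y W ih =>
    simp only [List.cons_append, run]
    constructor
    · rintro ⟨u, hu, h⟩
      obtain ⟨v, hv, h'⟩ := (ih u).1 h
      exact ⟨v, ⟨u, hu, hv⟩, h'⟩
    · rintro ⟨v, ⟨u, hu, hv⟩, h'⟩
      exact ⟨u, hu, (ih u).2 ⟨v, hv, h'⟩⟩

/-- leave the code word at level `k + 1` -/
def reset (k : ℕ) (x : St n) : St n := Function.update x (k + 1) none

theorem reset_eq {k : ℕ} {x : St n} (h : x (k + 1) = none) : reset k x = x := by
  unfold reset
  rw [← h, Function.update_eq_self]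

theorem reset_update (k : ℕ) (x : St n) (v : Option (Code n × ℕ)) :
    reset k (Function.update x (k + 1) v) = reset k x := by
  unfold reset
  rw [Function.update_idem]

/-! ### Colours of pairs of states -/

/-- the pair `(x, x')` has colour `c` -/
def Chi (x x' : St n) (c : Fin n) : Prop :=
  ∃ k, (∀ j, k < j → x j = none ∧ x' j = none) ∧
    ((∃ g t, x k = some (g, t) ∧ c = g.tc) ∨
      (x k = none ∧ ∃ g t, x' k = some (g, t) ∧ c = g.hd.1))

theorem chi_unique {x x' : St n} {c c' : Fin n} (h : Chi x x' c) (h' : Chi x x' c') : c = c' := by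
  obtain ⟨k, hk, h⟩ := h
  obtain ⟨k', hk', h'⟩ := h'
  have hkk : k = k' := by
    rcases lt_trichotomy k k' with hlt | heq | hgt
    · exfalso
      have := hk k' hlt
      rcases h' with ⟨g, t, h1, -⟩ | ⟨-, g, t, h1, -⟩
      · rw [this.1] at h1; cases h1
      · rw [this.2] at h1; cases h1
    · exact heq
    · exfalso
      have := hk' k hgt
      rcases h with ⟨g, t, h1, -⟩ | ⟨-, g, t, h1, -⟩
      · rw [this.1] at h1; cases h1
      · rw [this.2] at h1; cases h1
  subst hkk
  rcases h with ⟨g, t, h1, h2⟩ | ⟨h0, g, t, h1, h2⟩ <;>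
    rcases h' with ⟨g', t', h1', h2'⟩ | ⟨h0', g', t', h1', h2'⟩
  · rw [h1] at h1'
    simp only [Option.some.injEq, Prod.mk.injEq] at h1'
    rw [h2, h2', h1'.1]
  · rw [h0'] at h1; cases h1
  · rw [h0] at h1'; cases h1'
  · rw [h1] at h1'
    simp only [Option.some.injEq, Prod.mk.injEq] at h1'
    rw [h2, h2', h1'.1]

theorem chi_trans {x x' x'' : St n} {c : Fin n} (h : Chi x x' c) (h' : Chi x' x'' c) :
    Chi x x'' c := by
  obtain ⟨k, hk, h⟩ := h
  obtain ⟨k', hk', h'⟩ := h'
  rcases lt_trichotomy k k' with hlt | heq | hgt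
  · have h0 := hk k' hlt
    refine ⟨k', fun j hj => ⟨(hk j (by omega)).1, (hk' j hj).2⟩, Or.inr ⟨h0.1, ?_⟩⟩
    rcases h' with ⟨g, t, h1, -⟩ | ⟨-, h1⟩
    · rw [h0.2] at h1; cases h1
    · exact h1
  · subst heq
    refine ⟨k, fun j hj => ⟨(hk j hj).1, (hk' j hj).2⟩, ?_⟩
    rcases h with h1 | ⟨h0, g, t, h1, h2⟩
    · exact Or.inl h1
    · exfalso
      rcases h' with ⟨g', t', h1', h2'⟩ | ⟨h0', -⟩
      · rw [h1] at h1'
        simp only [Option.some.injEq, Prod.mk.injEq] at h1'
        rw [← h1'.1] at h2'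
        exact g.h1 (h2.symm.trans h2')
      · rw [h0'] at h1; cases h1
  · have h0 := hk' k hgt
    refine ⟨k, fun j hj => ⟨(hk j hj).1, (hk' j (by omega)).2⟩, Or.inl ?_⟩
    rcases h with h1 | ⟨-, g, t, h1, -⟩
    · exact h1
    · rw [h0.1] at h1; cases h1

/-! ### Two runs of the same word -/

/-- the two states have read the same letters of the current code word of level `k + 1` -/
def Match (k : ℕ) (x z : St n) : Prop :=
  (x (k + 1) = none ∧ z (k + 1) = none) ∨
    ∃ g g' t, x (k + 1) = some (g, t) ∧ z (k + 1) = some (g', t) ∧ 1 ≤ t ∧ t < L n ∧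
      ∀ s < t, g.letter s = g'.letter s

theorem two_le_L : 2 ≤ L n := by unfold L; omega

theorem couple (k : ℕ) : ∀ (W : List (ℕ × (Fin n × Fin n))), (∀ y ∈ W, y.1 ≤ k + 1) →
    ∀ x z x' z' : St n, Match k x z → run W x x' → run W z z' →
    ∃ W' : List (ℕ × (Fin n × Fin n)), (∀ y ∈ W', y.1 ≤ k) ∧
      run W' (reset k x) (reset k x') ∧ run W' (reset k z) (reset k z') ∧ Match k x' z' ∧
      (W' = [] → x' (k + 1) = none → W = [] ∧ x (k + 1) = none) := by
  intro W
  induction W with
  | nil =>
    intro _ x z x' z' hm hx hz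
    simp only [run] at hx hz
    subst hx hz
    exact ⟨[], by simp, rfl, rfl, hm, fun _ h => ⟨rfl, h⟩⟩
  | cons y W ih =>
    intro hW x z x' z' hm hx hz
    obtain ⟨u, hxu, hux⟩ := hx
    obtain ⟨v, hzv, hvz⟩ := hz
    have hy := hW y (by simp)
    have hW' : ∀ y ∈ W, y.1 ≤ k + 1 := fun w hw => hW w (by simp [hw])
    by_cases hk : y.1 ≤ k
    · -- a letter of lower level
      have ax := step_above _ _ _ _ hxu (k + 1) (by omega)
      have az := step_above _ _ _ _ hzv (k + 1) (by omega)
      obtain ⟨W1, h1, h2, h3, h4, -⟩ := ih hW' u v x' z' (Or.inl ⟨ax.2, az.2⟩) hux hvz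
      refine ⟨y :: W1, ?_, ⟨u, ?_, ?_⟩, ⟨v, ?_, ?_⟩, h4, fun h => by simp at h⟩
      · intro w hw
        rcases List.mem_cons.1 hw with rfl | hw
        · exact hk
        · exact h1 w hw
      · rw [reset_eq ax.1]; exact hxu
      · rw [reset_eq ax.2] at h2; exact h2
      · rw [reset_eq az.1]; exact hzv
      · rw [reset_eq az.2] at h3; exact h3
    · obtain ⟨m, a⟩ := y
      have hm1 : m = k + 1 := by simp only at hy hk; omega
      subst hm1
      simp only [step] at hxu hzv
      obtain ⟨-, hxu⟩ := hxu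
      obtain ⟨-, hzv⟩ := hzv
      rcases hxu with ⟨x0, g, gl, rfl⟩ | ⟨g, t, x0, ht, htL, gl, rfl⟩ | ⟨g, t, x0, ht, htL, gl, hs⟩
      · -- head
        rcases hm with ⟨-, z0⟩ | ⟨g1, g2, t1, x1, -⟩
        · rcases hzv with ⟨-, g', gl', rfl⟩ | ⟨g', t', z1, -⟩ | ⟨g', t', z1, -⟩
          · obtain ⟨W1, h1, h2, h3, h4, h5⟩ := ih hW' _ _ x' z'
              (Or.inr ⟨g, g', 1, Function.update_self .., Function.update_self .., le_rfl,
                two_le_L, fun s hs => by
                  have : s = 0 := by omega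
                  subst this
                  rw [gl, gl']⟩) hux hvz
            rw [reset_update] at h2 h3
            refine ⟨W1, h1, h2, h3, h4, fun ha hb => ?_⟩
            have := (h5 ha hb).2
            rw [Function.update_self] at this
            cases this
          · rw [z0] at z1; cases z1
          · rw [z0] at z1; cases z1
        · rw [x0] at x1; cases x1
      · -- tail
        rcases hm with ⟨x1, -⟩ | ⟨g1, g2, t1, x1, z1, ht1, htL1, hl⟩
        · rw [x0] at x1; cases x1
        · rw [x0] at x1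
          simp only [Option.some.injEq, Prod.mk.injEq] at x1
          obtain ⟨rfl, rfl⟩ := x1
          rcases hzv with ⟨z0, -⟩ | ⟨g', t', z2, -, -, gl', rfl⟩ | ⟨g', t', z2, -, htL', -⟩
          · rw [z0] at z1; cases z1
          · rw [z1] at z2
            simp only [Option.some.injEq, Prod.mk.injEq] at z2
            obtain ⟨rfl, rfl⟩ := z2
            obtain ⟨W1, h1, h2, h3, h4, h5⟩ := ih hW' _ _ x' z'
              (Or.inr ⟨g, g2, t + 1, Function.update_self .., Function.update_self .., by omega,
                htL, fun s hs => by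
                  rcases Nat.lt_succ_iff_lt_or_eq.1 hs with h | h
                  · exact hl s h
                  · subst h
                    rw [gl, gl']⟩) hux hvz
            rw [reset_update] at h2 h3
            refine ⟨W1, h1, h2, h3, h4, fun ha hb => ?_⟩
            have := (h5 ha hb).2
            rw [Function.update_self] at this
            cases this
          · rw [z1] at z2
            simp only [Option.some.injEq, Prod.mk.injEq] at z2
            obtain ⟨rfl, rfl⟩ := z2
            omega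
      · -- the code word is completed
        rcases hm with ⟨x1, -⟩ | ⟨g1, g2, t1, x1, z1, ht1, htL1, hl⟩
        · rw [x0] at x1; cases x1
        · rw [x0] at x1
          simp only [Option.some.injEq, Prod.mk.injEq] at x1
          obtain ⟨rfl, rfl⟩ := x1
          rcases hzv with ⟨z0, -⟩ | ⟨g', t', z2, -, htL', -⟩ | ⟨g', t', z2, -, -, gl', hs'⟩
          · rw [z0] at z1; cases z1
          · rw [z1] at z2
            simp only [Option.some.injEq, Prod.mk.injEq] at z2
            obtain ⟨rfl, rfl⟩ := z2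
            omega
          · rw [z1] at z2
            simp only [Option.some.injEq, Prod.mk.injEq] at z2
            obtain ⟨rfl, rfl⟩ := z2
            have htg : g.tg = g2.tg := by
              refine tg_eq g g2 fun s hs1 => ?_
              rcases Nat.lt_or_ge s t with h | h
              · exact hl s h
              · have : s = t := by omega
                subst this
                rw [gl, gl']
            have au := step_above _ _ _ _ hs (k + 1) (by omega)
            have av := step_above _ _ _ _ hs' (k + 1) (by omega)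
            obtain ⟨W1, h1, h2, h3, h4, -⟩ := ih hW' u v x' z' (Or.inl ⟨au.2, av.2⟩) hux hvz
            refine ⟨(k, g.tg) :: W1, ?_, ⟨u, hs, ?_⟩, ⟨v, ?_, ?_⟩, h4, fun h => by simp at h⟩
            · intro w hw
              rcases List.mem_cons.1 hw with rfl | hw
              · exact le_rfl
              · exact h1 w hw
            · rw [reset_eq au.2] at h2; exact h2
            · show step k g.tg (reset k z) v
              rw [htg]; exact hs'
            · rw [reset_eq av.2] at h3; exact h3

theorem conflict (k : ℕ) (x x' : St n) (h : Code n) (t : ℕ) (hx : x (k + 1) = some (h, t))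
    (a a2 a3 : Fin n × Fin n) (W : List (ℕ × (Fin n × Fin n)))
    (ha : a.1 ≠ a2.1) (ha2 : a2.1 = a3.1) :
    ¬ run ((k + 1, a) :: (k + 1, a2) :: (k + 1, a3) :: W) x x' := by
  rintro ⟨u, hu, v, hv, w, hw, -⟩
  simp only [step] at hu hv hw
  obtain ⟨-, hu⟩ := hu
  obtain ⟨-, hv⟩ := hv
  obtain ⟨-, hw⟩ := hw
  rcases hu with ⟨x0, -⟩ | ⟨g, s, x0, hs, hsL, gl, rfl⟩ | ⟨g, s, x0, hs, hsL, gl, hst⟩
  · rw [x0] at hx; cases hx
  · -- inside the code word
    have c1 : g.tc = a.1 := by rw [← gl, letter_col g s hs]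
    rcases hv with ⟨v0, -⟩ | ⟨g', s', v0, hs', -, gl', -⟩ | ⟨g', s', v0, hs', -, gl', -⟩
    · rw [Function.update_self] at v0; cases v0
    · rw [Function.update_self] at v0
      simp only [Option.some.injEq, Prod.mk.injEq] at v0
      obtain ⟨rfl, rfl⟩ := v0
      exact ha (by rw [← c1, ← gl', letter_col g _ hs'])
    · rw [Function.update_self] at v0
      simp only [Option.some.injEq, Prod.mk.injEq] at v0
      obtain ⟨rfl, rfl⟩ := v0
      exact ha (by rw [← c1, ← gl', letter_col g _ hs'])
  · have u0 := (step_above _ _ _ _ hst (k + 1) (by omega)).2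
    rcases hv with ⟨-, g', gl', rfl⟩ | ⟨g', s', v0, -⟩ | ⟨g', s', v0, -⟩
    · rcases hw with ⟨w0, -⟩ | ⟨g2, s2, w0, hs2, -, gl2, -⟩ | ⟨g2, s2, w0, hs2, -, gl2, -⟩
      · rw [Function.update_self] at w0; cases w0
      · rw [Function.update_self] at w0
        simp only [Option.some.injEq, Prod.mk.injEq] at w0
        obtain ⟨rfl, rfl⟩ := w0
        refine g'.h1 ?_
        have e1 : g'.hd.1 = a2.1 := by rw [← gl']; rfl
        rw [e1, ha2, ← gl2, letter_col g' _ hs2]
      · rw [Function.update_self] at w0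
        simp only [Option.some.injEq, Prod.mk.injEq] at w0
        obtain ⟨rfl, rfl⟩ := w0
        refine g'.h1 ?_
        have e1 : g'.hd.1 = a2.1 := by rw [← gl']; rfl
        rw [e1, ha2, ← gl2, letter_col g' _ hs2]
    · rw [u0] at v0; cases v0
    · rw [u0] at v0; cases v0


theorem run_above (k : ℕ) : ∀ (W : List (ℕ × (Fin n × Fin n))), (∀ y ∈ W, y.1 ≤ k) →
    ∀ x x' : St n, run W x x' → (W ≠ [] ∨ ∀ j, k < j → x j = none) →
    ∀ j, k < j → x j = none ∧ x' j = none := by
  intro W
  induction W with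
  | nil =>
    intro _ x x' h h0 j hj
    simp only [run] at h
    subst h
    rcases h0 with h0 | h0
    · exact absurd rfl h0
    · exact ⟨h0 j hj, h0 j hj⟩
  | cons y W ih =>
    intro hW x x' h _ j hj
    obtain ⟨u, hu, h⟩ := h
    have hy := hW y (by simp)
    have hab := step_above _ _ _ _ hu
    have h2 := ih (fun w hw => hW w (by simp [hw])) u x' h
      (Or.inr fun i hi => (hab i (by omega)).2) j hj
    exact ⟨(hab j (by omega)).1, h2.2⟩

theorem three_le_L (a : Fin n) : 3 ≤ L n := by
  have := a.pos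
  have : 1 ≤ n * n := Nat.mul_pos this this
  unfold L; omega

theorem mixed (k : ℕ) (W : List (ℕ × (Fin n × Fin n))) (hne : W ≠ [])
    (hW : ∀ y ∈ W, y.1 ≤ k + 1) (x x' z z' : St n) (g : Code n) (t : ℕ)
    (x0 : x (k + 1) = none) (z0 : z (k + 1) = some (g, t)) (hx : run W x x') (hz : run W z z') :
    ∃ c, Chi x x' c ∧ Chi z z' c := by
  have abx := run_above (k + 1) W hW x x' hx (Or.inl hne)
  have abz := run_above (k + 1) W hW z z' hz (Or.inl hne)
  obtain _ | ⟨⟨m, a⟩, W1⟩ := W
  · exact absurd rfl hne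
  have hxx := hx
  have hzz := hz
  obtain ⟨u, hu, hux⟩ := hx
  obtain ⟨v, hv, hvz⟩ := hz
  have hm : m = k + 1 := by
    have h1 := hW (m, a) (by simp)
    by_contra hne'
    have := (step_above _ _ _ _ hv (k + 1) (by simp only at h1 ⊢; omega)).1
    rw [z0] at this; cases this
  subst hm
  simp only [step] at hu hv
  obtain ⟨-, hu⟩ := hu
  obtain ⟨-, hv⟩ := hv
  have cz : a.1 = g.tc := by
    rcases hv with ⟨v0, -⟩ | ⟨g', s', v0, hs', -, gl', -⟩ | ⟨g', s', v0, hs', -, gl', -⟩
    · rw [z0] at v0; cases v0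
    · rw [z0] at v0
      simp only [Option.some.injEq, Prod.mk.injEq] at v0
      obtain ⟨rfl, rfl⟩ := v0
      rw [← gl', letter_col g _ hs']
    · rw [z0] at v0
      simp only [Option.some.injEq, Prod.mk.injEq] at v0
      obtain ⟨rfl, rfl⟩ := v0
      rw [← gl', letter_col g _ hs']
  have chz : Chi z z' a.1 := ⟨k + 1, abz, Or.inl ⟨g, t, z0, cz⟩⟩
  rcases hu with ⟨-, g1, gl1, rfl⟩ | ⟨g1, t1, x1, -⟩ | ⟨g1, t1, x1, -⟩
  · have c1 : a.1 = g1.hd.1 := by rw [← gl1]; rfl
    suffices h : ∃ t', x' (k + 1) = some (g1, t') by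
      obtain ⟨t', ht'⟩ := h
      exact ⟨a.1, ⟨k + 1, abx, Or.inr ⟨x0, g1, t', ht', c1⟩⟩, chz⟩
    obtain _ | ⟨⟨m2, a2⟩, W2⟩ := W1
    · simp only [run] at hux
      subst hux
      exact ⟨1, Function.update_self ..⟩
    obtain ⟨u2, hu2, hux2⟩ := hux
    have hm2 : m2 = k + 1 := by
      have h1 := hW (m2, a2) (by simp)
      by_contra hne'
      have := (step_above _ _ _ _ hu2 (k + 1) (by simp only at h1 ⊢; omega)).1
      rw [Function.update_self] at this; cases this
    subst hm2
    simp only [step] at hu2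
    obtain ⟨-, hu2⟩ := hu2
    have hL := three_le_L a.1
    rcases hu2 with ⟨w0, -⟩ | ⟨g2, t2, w0, ht2, -, gl2, rfl⟩ | ⟨g2, t2, w0, ht2, htL2, gl2, -⟩
    · rw [Function.update_self] at w0; cases w0
    · rw [Function.update_self] at w0
      simp only [Option.some.injEq, Prod.mk.injEq] at w0
      obtain ⟨rfl, rfl⟩ := w0
      obtain _ | ⟨⟨m3, a3⟩, W3⟩ := W2
      · simp only [run] at hux2
        subst hux2
        exact ⟨2, Function.update_self ..⟩
      obtain ⟨u3, hu3, hux3⟩ := hux2
      have hm3 : m3 = k + 1 := by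
        have h1 := hW (m3, a3) (by simp)
        by_contra hne'
        have := (step_above _ _ _ _ hu3 (k + 1) (by simp only at h1 ⊢; omega)).1
        rw [Function.update_self] at this; cases this
      subst hm3
      simp only [step] at hu3
      obtain ⟨-, hu3⟩ := hu3
      exfalso
      have c2 : a2.1 = g1.tc := by rw [← gl2, letter_col g1 _ le_rfl]
      have c3 : a3.1 = g1.tc := by
        rcases hu3 with ⟨w0, -⟩ | ⟨g3, t3, w0, ht3, -, gl3, -⟩ | ⟨g3, t3, w0, ht3, -, gl3, -⟩
        · rw [Function.update_self] at w0; cases w0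
        · rw [Function.update_self] at w0
          simp only [Option.some.injEq, Prod.mk.injEq] at w0
          obtain ⟨rfl, rfl⟩ := w0
          rw [← gl3, letter_col g1 _ ht3]
        · rw [Function.update_self] at w0
          simp only [Option.some.injEq, Prod.mk.injEq] at w0
          obtain ⟨rfl, rfl⟩ := w0
          rw [← gl3, letter_col g1 _ ht3]
      refine conflict k z z' g t z0 a a2 a3 W3 ?_ (c2.trans c3.symm) hzz
      rw [c1, c2]
      exact g1.h1
    · rw [Function.update_self] at w0
      simp only [Option.some.injEq, Prod.mk.injEq] at w0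
      obtain ⟨rfl, rfl⟩ := w0
      omega
  · rw [x0] at x1; cases x1
  · rw [x0] at x1; cases x1

/-- all pairs of the relation of a nonempty word have one colour -/
theorem mono : ∀ (k : ℕ) (W : List (ℕ × (Fin n × Fin n))), W ≠ [] → (∀ y ∈ W, y.1 ≤ k) →
    ∀ x x' z z' : St n, run W x x' → run W z z' → ∃ c, Chi x x' c ∧ Chi z z' c := by
  intro k
  induction k with
  | zero =>
    intro W hne hW x x' z z' hx hz
    have abx := run_above 0 W hW x x' hx (Or.inl hne)
    have abz := run_above 0 W hW z z' hz (Or.inl hne)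
    obtain _ | ⟨⟨m, a⟩, W1⟩ := W
    · exact absurd rfl hne
    have hm : m = 0 := by have := hW (m, a) (by simp); simp only at this; omega
    subst hm
    obtain ⟨u, hu, hux⟩ := hx
    obtain ⟨v, hv, hvz⟩ := hz
    simp only [step] at hu hv
    obtain ⟨x0, g, gl, rfl⟩ := hu
    obtain ⟨z0, g', gl', rfl⟩ := hv
    obtain _ | ⟨⟨m2, a2⟩, W2⟩ := W1
    · simp only [run] at hux hvz
      subst hux hvz
      refine ⟨a.1, ⟨0, abx, Or.inr ⟨x0 0, g, 1, Function.update_self .., ?_⟩⟩,
        ⟨0, abz, Or.inr ⟨z0 0, g', 1, Function.update_self .., ?_⟩⟩⟩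
      · rw [← gl]; rfl
      · rw [← gl']; rfl
    · exfalso
      have hm2 : m2 = 0 := by have := hW (m2, a2) (by simp); simp only at this; omega
      subst hm2
      obtain ⟨w, hw, -⟩ := hux
      simp only [step] at hw
      have := hw.1 0
      rw [Function.update_self] at this
      cases this
  | succ k ih =>
    intro W hne hW x x' z z' hx hz
    have abx := run_above (k + 1) W hW x x' hx (Or.inl hne)
    have abz := run_above (k + 1) W hW z z' hz (Or.inl hne)
    rcases x0 : x (k + 1) with _ | ⟨g, t⟩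
    · rcases z0 : z (k + 1) with _ | ⟨g', t'⟩
      · obtain ⟨W', h1, h2, h3, h4, h5⟩ := couple k W hW x z x' z' (Or.inl ⟨x0, z0⟩) hx hz
        rcases h4 with ⟨x1, z1⟩ | ⟨g, g', t, x1, z1, ht, -, hl⟩
        · have hne' : W' ≠ [] := fun h => hne (h5 h x1).1
          rw [reset_eq x0, reset_eq x1] at h2
          rw [reset_eq z0, reset_eq z1] at h3
          exact ih W' hne' h1 x x' z z' h2 h3
        · refine ⟨g.hd.1, ⟨k + 1, abx, Or.inr ⟨x0, g, t, x1, rfl⟩⟩,
            ⟨k + 1, abz, Or.inr ⟨z0, g', t, z1, ?_⟩⟩⟩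
          have := hl 0 (by omega)
          simp only [Code.letter] at this
          rw [this]
      · exact mixed k W hne hW x x' z z' g' t' x0 z0 hx hz
    · rcases z0 : z (k + 1) with _ | ⟨g', t'⟩
      · obtain ⟨c, h1, h2⟩ := mixed k W hne hW z z' x x' g t z0 x0 hz hx
        exact ⟨c, h2, h1⟩
      · obtain _ | ⟨⟨m, a⟩, W1⟩ := W
        · exact absurd rfl hne
        obtain ⟨u, hu, hux⟩ := hx
        obtain ⟨v, hv, hvz⟩ := hz
        have hm : m = k + 1 := by
          have h1 := hW (m, a) (by simp)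
          by_contra hne'
          have := (step_above _ _ _ _ hv (k + 1) (by simp only at h1 ⊢; omega)).1
          rw [z0] at this; cases this
        subst hm
        simp only [step] at hu hv
        obtain ⟨-, hu⟩ := hu
        obtain ⟨-, hv⟩ := hv
        have cx : a.1 = g.tc := by
          rcases hu with ⟨v0, -⟩ | ⟨g', s', v0, hs', -, gl', -⟩ | ⟨g', s', v0, hs', -, gl', -⟩
          · rw [x0] at v0; cases v0
          · rw [x0] at v0
            simp only [Option.some.injEq, Prod.mk.injEq] at v0
            obtain ⟨rfl, rfl⟩ := v0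
            rw [← gl', letter_col g _ hs']
          · rw [x0] at v0
            simp only [Option.some.injEq, Prod.mk.injEq] at v0
            obtain ⟨rfl, rfl⟩ := v0
            rw [← gl', letter_col g _ hs']
        have cz : a.1 = g'.tc := by
          rcases hv with ⟨v0, -⟩ | ⟨g2, s', v0, hs', -, gl', -⟩ | ⟨g2, s', v0, hs', -, gl', -⟩
          · rw [z0] at v0; cases v0
          · rw [z0] at v0
            simp only [Option.some.injEq, Prod.mk.injEq] at v0
            obtain ⟨rfl, rfl⟩ := v0
            rw [← gl', letter_col g' _ hs']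
          · rw [z0] at v0
            simp only [Option.some.injEq, Prod.mk.injEq] at v0
            obtain ⟨rfl, rfl⟩ := v0
            rw [← gl', letter_col g' _ hs']
        exact ⟨a.1, ⟨k + 1, abx, Or.inl ⟨g, t, x0, cx⟩⟩, ⟨k + 1, abz, Or.inl ⟨g', t', z0, cz⟩⟩⟩

/-! ### The relations between the levels -/

/-- letters `t, …, t + m - 1` of a code word, at level `k + 1` -/
def seg (k : ℕ) (g : Code n) (t m : ℕ) : List (ℕ × (Fin n × Fin n)) :=
  (List.range' t m).map fun s => (k + 1, g.letter s)

theorem seg_succ (k : ℕ) (g : Code n) (t m : ℕ) :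
    seg k g t (m + 1) = (k + 1, g.letter t) :: seg k g (t + 1) m := by
  simp [seg, List.range'_succ]

theorem segA (k : ℕ) (g : Code n) : ∀ (m t : ℕ) (x x' : St n) (h : Code n), t + m = L n → 1 ≤ t →
    1 ≤ m → x (k + 1) = some (h, t) → (∀ s < t, h.letter s = g.letter s) →
    run (seg k g t m) x x' → step k g.tg (reset k x) x' := by
  intro m
  induction m with
  | zero => intro t x x' h _ _ h1; exact absurd h1 (by omega)
  | succ m ih =>
    intro t x x' h htm ht _ hx hl hr
    rw [seg_succ] at hr
    obtain ⟨u, hu, hux⟩ := hr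
    simp only [step] at hu
    obtain ⟨-, hu⟩ := hu
    rcases hu with ⟨x0, -⟩ | ⟨h', t', x0, -, htL, gl, rfl⟩ | ⟨h', t', x0, -, htL, gl, hs⟩
    · rw [x0] at hx; cases hx
    · rw [hx] at x0
      simp only [Option.some.injEq, Prod.mk.injEq] at x0
      obtain ⟨rfl, rfl⟩ := x0
      have := ih (t + 1) _ x' h (by omega) (by omega) (by omega) (Function.update_self ..)
        (fun s hs => by
          rcases Nat.lt_succ_iff_lt_or_eq.1 hs with h1 | h1
          · exact hl s h1
          · subst h1; exact gl) hux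
      rw [reset_update] at this
      exact this
    · rw [hx] at x0
      simp only [Option.some.injEq, Prod.mk.injEq] at x0
      obtain ⟨rfl, rfl⟩ := x0
      have hm0 : m = 0 := by omega
      subst hm0
      simp only [seg, List.range'_zero, List.map_nil, run] at hux
      subst hux
      have htg : h.tg = g.tg := tg_eq h g fun s hs1 => by
        rcases Nat.lt_or_ge s t with h1 | h1
        · exact hl s h1
        · have : s = t := by omega
          subst this
          exact gl
      rw [← htg]
      exact hs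

theorem segB (k : ℕ) (g : Code n) : ∀ (m t : ℕ) (x x' : St n), t + m = L n → 1 ≤ t →
    1 ≤ m → x (k + 1) = some (g, t) → (∀ j, k + 1 < j → x j = none) →
    step k g.tg (reset k x) x' → run (seg k g t m) x x' := by
  intro m
  induction m with
  | zero => intro t x x' _ _ h1; exact absurd h1 (by omega)
  | succ m ih =>
    intro t x x' htm ht _ hx hab hs
    rw [seg_succ]
    rcases Nat.eq_zero_or_pos m with hm0 | hm0
    · subst hm0
      refine ⟨x', ?_, ?_⟩
      · simp only [step]
        exact ⟨hab, Or.inr (Or.inr ⟨g, t, hx, ht, by omega, rfl, hs⟩)⟩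
      · simp [seg, run]
    · refine ⟨Function.update x (k + 1) (some (g, t + 1)), ?_, ?_⟩
      · simp only [step]
        exact ⟨hab, Or.inr (Or.inl ⟨g, t, hx, ht, by omega, rfl, rfl⟩)⟩
      · refine ih (t + 1) _ x' (by omega) (by omega) (by omega) (Function.update_self ..) ?_ ?_
        · intro j hj
          rw [Function.update_of_ne (by omega)]
          exact hab j hj
        · rw [reset_update]
          exact hs

/-- a letter of level `k` is equal, as a relation, to every code word for it of level `k + 1` -/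
theorem run_code (k : ℕ) (g : Code n) (x x' : St n) :
    run (seg k g 0 (L n)) x x' ↔ step k g.tg x x' := by
  have hL := three_le_L g.b
  obtain ⟨m, hm⟩ : ∃ m, L n = m + 1 + 1 + 1 := ⟨L n - 3, by omega⟩
  constructor
  · intro h
    rw [hm, seg_succ] at h
    have h' := h
    obtain ⟨u, hu, hux⟩ := h
    simp only [step] at hu
    obtain ⟨hab, hu⟩ := hu
    have key : ∀ (h1 : Code n) (t : ℕ), x (k + 1) = some (h1, t) → False := by
      intro h1 t x0
      rw [seg_succ, seg_succ] at h'
      refine conflict k x x' h1 t x0 _ _ _ _ ?_ ?_ h'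
      · rw [letter_col g _ le_rfl]
        exact g.h1
      · rw [letter_col g _ le_rfl, letter_col g _ (by omega)]
    rcases hu with ⟨x0, h1, gl, rfl⟩ | ⟨h1, t, x0, -⟩ | ⟨h1, t, x0, -⟩
    · have := segA k g (m + 1 + 1) 1 _ x' h1 (by omega) le_rfl (by omega) (Function.update_self ..)
        (fun s hs => by
          have : s = 0 := by omega
          subst this
          exact gl) hux
      rw [reset_update, reset_eq x0] at this
      exact this
    · exact (key h1 t x0).elim
    · exact (key h1 t x0).elim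
  · intro h
    have hab := step_above _ _ _ _ h
    have x0 := (hab (k + 1) (by omega)).1
    rw [hm, seg_succ]
    refine ⟨Function.update x (k + 1) (some (g, 1)), ?_, ?_⟩
    · simp only [step]
      exact ⟨fun j hj => (hab j (by omega)).1, Or.inl ⟨x0, g, rfl, rfl⟩⟩
    · refine segB k g (m + 1 + 1) 1 _ x' (by omega) le_rfl (by omega) (Function.update_self ..)
        ?_ ?_
      · intro j hj
        rw [Function.update_of_ne (by omega)]
        exact (hab j (by omega)).1
      · rw [reset_update, reset_eq x0]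
        exact h

/-! ### The semigroup -/

/-- binary relations on a type, with composition -/
def BRel (X : Type) := X → X → Prop

instance (X : Type) : Semigroup (BRel X) where
  mul r s := fun x z => ∃ y, r x y ∧ s y z
  mul_assoc r s t := by
    funext x z
    refine propext ⟨?_, ?_⟩
    · rintro ⟨y, ⟨w, h1, h2⟩, h3⟩
      exact ⟨w, h1, y, h2, h3⟩
    · rintro ⟨w, h1, y, h2, h3⟩
      exact ⟨y, ⟨w, h1, h2⟩, h3⟩

theorem mul_def {X : Type} (r s : BRel X) : r * s = fun x z => ∃ y, r x y ∧ s y z := rfl

/-- the relation of a letter as an element of the semigroup of relations -/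
def letterRel (y : ℕ × (Fin n × Fin n)) : BRel (St n) := step y.1 y.2

/-- the semigroup -/
def Sg (n : ℕ) : Subsemigroup (BRel (St n)) := Subsemigroup.closure (Set.range letterRel)

/-- generators of the semigroup -/
def gen (y : ℕ × (Fin n × Fin n)) : Sg n :=
  ⟨letterRel y, Subsemigroup.subset_closure ⟨y, rfl⟩⟩

theorem exists_word (s : BRel (St n)) (hs : s ∈ Sg n) :
    ∃ W : List (ℕ × (Fin n × Fin n)), W ≠ [] ∧ s = run W := by
  unfold Sg at hs
  induction hs using Subsemigroup.closure_induction with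
  | mem s hs =>
    obtain ⟨y, rfl⟩ := hs
    refine ⟨[y], by simp, ?_⟩
    funext x x'
    simp [run, letterRel]
  | mul s t _ _ h1 h2 =>
    obtain ⟨W, hW, rfl⟩ := h1
    obtain ⟨V, hV, rfl⟩ := h2
    refine ⟨W ++ V, by simp [hW], ?_⟩
    funext x x'
    exact (propext (run_append W V x x')).symm

/-- if a subsemigroup contains all letters of a word then it contains the word -/
theorem word_mem (T : Subsemigroup (Sg n)) : ∀ (W : List (ℕ × (Fin n × Fin n))), W ≠ [] →
    (∀ y ∈ W, gen y ∈ T) → ∃ s ∈ T, (s : BRel (St n)) = run W := by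
  intro W
  induction W with
  | nil => intro h; exact absurd rfl h
  | cons y W ih =>
    intro _ hW
    by_cases hne : W = []
    · subst hne
      refine ⟨gen y, hW y (by simp), ?_⟩
      funext x x'
      simp [run, gen, letterRel]
    · obtain ⟨s, hs, hsW⟩ := ih hne fun w hw => hW w (by simp [hw])
      refine ⟨gen y * s, T.mul_mem (hW y (by simp)) hs, ?_⟩
      show letterRel y * (s : BRel (St n)) = _
      rw [hsW]
      rfl


theorem gen_mem_of_code (T : Subsemigroup (Sg n)) (k : ℕ) (g : Code n)
    (h : ∀ t < L n, gen (k + 1, g.letter t) ∈ T) : gen (k, g.tg) ∈ T := by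
  have hne : seg k g 0 (L n) ≠ [] := by
    have : L n = n * n + 1 + 1 := rfl
    rw [this, seg_succ]
    simp
  obtain ⟨s, hs, hsW⟩ := word_mem T (seg k g 0 (L n)) hne (by
    intro y hy
    obtain ⟨t, ht, rfl⟩ := List.mem_map.1 hy
    rw [List.mem_range'] at ht
    obtain ⟨i, hi, rfl⟩ := ht
    exact h _ (by omega))
  have : s = gen (k, g.tg) := by
    apply Subtype.ext
    rw [hsW]
    funext x x'
    exact propext (run_code k g x x')
  rw [← this]
  exact hs

theorem eq_top_of_gen (T : Subsemigroup (Sg n)) (h : ∀ y, gen y ∈ T) : T = ⊤ := by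
  refine (Subsemigroup.eq_top_iff' T).2 fun s => ?_
  obtain ⟨W, hW, hs⟩ := exists_word s.1 s.2
  obtain ⟨s', hs', hsW⟩ := word_mem T W hW fun y _ => h y
  have : s' = s := Subtype.ext (hsW.trans hs.symm)
  rw [← this]
  exact hs'

theorem level_down (hn : 2 ≤ n) (T : Subsemigroup (Sg n)) (k : ℕ)
    (h : ∀ l, gen (k + 1, l) ∈ T) (l : Fin n × Fin n) : gen (k, l) ∈ T := by
  have h01 : (⟨0, by omega⟩ : Fin n) ≠ ⟨1, by omega⟩ := by simp
  exact gen_mem_of_code T k
    { hd := (⟨0, by omega⟩, ⟨0, by omega⟩), tc := ⟨1, by omega⟩, b := ⟨0, by omega⟩,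
      b' := ⟨1, by omega⟩, tg := l, h1 := h01, h2 := h01 } fun t _ => h _

/-- fewer than `n` subsemigroups covering the semigroup are not all proper -/
theorem lower (hn : 2 ≤ n) {m : ℕ} (hm : m < n) (T : Fin m → Subsemigroup (Sg n))
    (hT : ∀ s, ∃ i, s ∈ T i) : ∃ i, T i = ⊤ := by
  choose cls hcls using fun y => hT (gen y)
  have step1 : ∀ k, ∃ c, ∀ l, gen (k, l) ∈ T c := by
    intro k
    have h1 : ∀ i : Fin n, ∃ b b' : Fin n, b ≠ b' ∧ cls (k + 1, (i, b)) = cls (k + 1, (i, b')) :=
      fun i => Fintype.exists_ne_map_eq_of_card_lt (fun b => cls (k + 1, (i, b))) (by simpa using hm)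
    choose b b' hb hc using h1
    obtain ⟨i, i', hi, hii⟩ :=
      Fintype.exists_ne_map_eq_of_card_lt (fun i => cls (k + 1, (i, b i))) (by simpa using hm)
    refine ⟨cls (k + 1, (i, b i)), fun l => ?_⟩
    refine gen_mem_of_code _ k
      { hd := (i, b i), tc := i', b := b i', b' := b' i', tg := l, h1 := hi, h2 := hb i' } ?_
    have e0 : gen (k + 1, (i, b i)) ∈ T (cls (k + 1, (i, b i))) := hcls _
    have e1 : gen (k + 1, (i', b i')) ∈ T (cls (k + 1, (i, b i))) := by
      rw [hii]; exact hcls _
    have e2 : gen (k + 1, (i', b' i')) ∈ T (cls (k + 1, (i, b i))) := by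
      rw [hii, hc]; exact hcls _
    intro t _
    match t with
    | 0 => exact e0
    | 1 => exact e1
    | (t + 2) =>
      simp only [Code.letter]
      split_ifs
      · exact e2
      · exact e1
  choose c hc using step1
  obtain ⟨y, hy⟩ := Finite.exists_infinite_fiber c
  refine ⟨y, eq_top_of_gen _ ?_⟩
  have down : ∀ d k, (∀ l, gen (k + d, l) ∈ T y) → ∀ l, gen (k, l) ∈ T y := by
    intro d
    induction d with
    | zero => intro k h; exact h
    | succ d ih =>
      intro k h
      exact ih k (level_down hn (T y) (k + d) h)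
  rintro ⟨k, l⟩
  have hinf : (c ⁻¹' {y}).Infinite := Set.infinite_coe_iff.1 hy
  obtain ⟨k', hk', hlt⟩ := hinf.exists_gt k
  obtain ⟨d, rfl⟩ := Nat.exists_eq_add_of_lt hlt
  refine down (d + 1) k (fun l => ?_) l
  have h := hc (k + d + 1) l
  rw [show c (k + d + 1) = y from hk'] at h
  exact h

/-- elements all of whose pairs have colour `c` -/
def cl (c : Fin n) : Subsemigroup (Sg n) where
  carrier := {s | ∀ x x', s.1 x x' → Chi x x' c}
  mul_mem' := by
    rintro a b ha hb x x'' ⟨x', h1, h2⟩
    exact chi_trans (ha x x' h1) (hb x' x'' h2)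

theorem gen_mem_cl (c b : Fin n) : gen (0, (c, b)) ∈ cl c := by
  intro x x' h
  have hab := step_above 0 _ x x' h
  obtain ⟨x0, g, gl, rfl⟩ := h
  refine ⟨0, hab, Or.inr ⟨x0 0, g, 1, Function.update_self .., ?_⟩⟩
  have : g.hd = (c, b) := gl
  rw [this]

theorem cl_ne_top (hn : 2 ≤ n) (c : Fin n) : cl c ≠ ⊤ := by
  intro h
  have h01 : (⟨0, by omega⟩ : Fin n) ≠ ⟨1, by omega⟩ := by simp
  obtain ⟨c', hc'⟩ : ∃ c' : Fin n, c' ≠ c := by
    by_cases h0 : (⟨0, by omega⟩ : Fin n) = c
    · exact ⟨⟨1, by omega⟩, fun h1 => h01 (h0.trans h1.symm)⟩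
    · exact ⟨_, h0⟩
  let g : Code n := ⟨(c', ⟨0, by omega⟩), c, ⟨0, by omega⟩, ⟨1, by omega⟩, (c, c), hc', h01⟩
  have h1 : gen (0, (c', ⟨0, by omega⟩)) ∈ cl c := by rw [h]; trivial
  have hs : (gen (0, (c', ⟨0, by omega⟩)) : Sg n).1 (fun _ => none)
      (Function.update (fun _ => none) 0 (some (g, 1))) := ⟨fun _ => rfl, g, rfl, rfl⟩
  exact hc' (chi_unique (gen_mem_cl c' ⟨0, by omega⟩ _ _ hs) (h1 _ _ hs))

theorem exists_bound : ∀ W : List (ℕ × (Fin n × Fin n)), ∃ k, ∀ y ∈ W, y.1 ≤ k
  | [] => ⟨0, by simp⟩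
  | (y :: W) => by
    obtain ⟨k, hk⟩ := exists_bound W
    refine ⟨max y.1 k, fun w hw => ?_⟩
    rcases List.mem_cons.1 hw with rfl | hw
    · exact le_max_left _ _
    · exact (hk w hw).trans (le_max_right _ _)

theorem cl_cover (hn : 2 ≤ n) (s : Sg n) : ∃ c, s ∈ cl c := by
  obtain ⟨W, hW, hs⟩ := exists_word s.1 s.2
  obtain ⟨k, hk⟩ := exists_bound W
  by_cases h : ∃ x x', run W x x'
  · obtain ⟨x, x', h⟩ := h
    obtain ⟨c, hc, -⟩ := mono k W hW hk x x' x x' h h
    refine ⟨c, fun z z' hz => ?_⟩
    rw [hs] at hz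
    obtain ⟨c', h1, h2⟩ := mono k W hW hk x x' z z' h hz
    rw [chi_unique hc h1]
    exact h2
  · refine ⟨⟨0, by omega⟩, fun z z' hz => ?_⟩
    rw [hs] at hz
    exact absurd ⟨z, z', hz⟩ h

/-- For every `n ≥ 2` there is a semigroup which is the union of `n` proper subsemigroups but not
of fewer. -/
theorem result : ∀ n : ℕ, 2 ≤ n → ∃ (S : Type) (_ : Semigroup S), IsLeast {m : ℕ | CoveredBy S m} n := by
  intro n hn
  refine ⟨Sg n, inferInstance, ⟨cl, fun c => ⟨⟨_, gen_mem_cl c ⟨0, by omega⟩⟩, cl_ne_top hn c⟩,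
    cl_cover hn⟩, ?_⟩
  rintro m ⟨T, hT, hcov⟩
  by_contra hlt
  obtain ⟨i, hi⟩ := lower hn (by omega) T hcov
  exact (hT i).2 hi

end Pool.Agent.Results.MP_2bfc8a_al.EveryCoveringNumber
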